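import Pool.Agent.Helper71.JN.SheetB

/-!
# Project JN, row SPN: the spectral norm on the algebraic closure of `K`
-/

set_option autoImplicit false

namespace Helper78.JN

open Polynomial Pool.Agent.Helper71.JN

/-- the spectral norm of a field with an ultrametric absolute value -/
theorem spn_gen (K L : Type) [Field K] [Field L] [Algebra K L] [Algebra.IsAlgebraic K L]
    (v : AbsoluteValue K ℝ) (hv : ∀ x y, v (x + y) ≤ max (v x) (v y)) :
    ∃ N : L → ℝ, (∀ a, 0 ≤ N a) ∧ (∀ a b, N (a + b) ≤ max (N a) (N b)) ∧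
      (∀ a b, N (a * b) ≤ N a * N b) ∧ (∀ a, N (-a) = N a) ∧
      (∀ k, N (algebraMap K L k) = v k) ∧
      (∀ (a : L) (c : ℝ), 0 ≤ c → (∀ n < (minpoly K a).natDegree,
        v ((minpoly K a).coeff n) ≤ c ^ ((minpoly K a).natDegree - n)) → N a ≤ c) ∧
      (∀ a, v ((minpoly K a).coeff 0) ≤ N a ^ (minpoly K a).natDegree) := by
  let _ : NormedField K := v.toNormedField
  have _ : IsUltrametricDist K := IsUltrametricDist.isUltrametricDist_of_isNonarchimedean_norm hv
  have hn : ∀ k : K, ‖k‖ = v k := fun k => rfl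
  have halg : ∀ a : L, IsAlgebraic K a := fun a => Algebra.IsAlgebraic.isAlgebraic a
  refine ⟨spectralNorm K L, spectralNorm_nonneg, fun a b => isNonarchimedean_spectralNorm a b,
    fun a b => spectralNorm_mul (halg a) (halg b), fun a => spectralNorm_neg (halg a),
    fun k => spectralNorm_extends k, ?_, ?_⟩
  · intro a c hc h
    refine ciSup_le fun n => ?_
    by_cases hlt : n < (minpoly K a).natDegree
    · rw [spectralValueTerms_of_lt_natDegree _ hlt]
      have h1 := h n hlt
      have h2 : 0 < (minpoly K a).natDegree - n := Nat.sub_pos_of_lt hlt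
      have h3 : (((minpoly K a).natDegree : ℝ) - n) = (((minpoly K a).natDegree - n : ℕ) : ℝ) := by
        rw [Nat.cast_sub hlt.le]
      rw [h3, one_div]
      refine (Real.rpow_le_rpow (norm_nonneg _) (h1 : ‖(minpoly K a).coeff n‖ ≤ _)
        (by positivity)).trans ?_
      rw [Real.pow_rpow_inv_natCast hc h2.ne']
    · rw [spectralValueTerms_of_natDegree_le _ (not_lt.1 hlt)]
      exact hc
  · intro a
    have h0 : 0 < (minpoly K a).natDegree := minpoly.natDegree_pos (halg a).isIntegral
    have h1 : spectralValueTerms (minpoly K a) 0 ≤ spectralNorm K L a :=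
      le_ciSup (spectralValueTerms_bddAbove _) 0
    rw [spectralValueTerms_of_lt_natDegree _ h0] at h1
    have h3 : (((minpoly K a).natDegree : ℝ) - (0 : ℕ)) = ((minpoly K a).natDegree : ℝ) := by
      simp
    rw [h3, one_div] at h1
    have h2 := pow_le_pow_left₀ (by positivity) h1 (minpoly K a).natDegree
    rw [Real.rpow_inv_natCast_pow (norm_nonneg _) h0.ne'] at h2
    exact h2

theorem SPN (hP : ST_PRIM) : ST_SPN := by
  intro F Ω _ _ _ I _ r D i
  obtain ⟨N, h1, h2, h3, h4, h5, h6, h7⟩ := spn_gen D.K (AlgebraicClosure D.K)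
    ((D.nu i).comp (f := algebraMap D.K Ω) (algebraMap D.K Ω).injective)
    (fun x y => D.ult i (x : Ω) (y : Ω))
  refine ⟨N, h1, h2, h3, h4, h5, ?_, h7⟩
  intro z hz hi a ha
  have e : minpoly D.K z = minpoly D.K a :=
    minpoly.eq_of_irreducible_of_monic (minpoly.irreducible hi) ha (minpoly.monic hi)
  refine h6 a _ (AbsoluteValue.nonneg _ _) fun n _ => ?_
  rw [← e]
  exact (hP F Ω I r D z hz hi n).2 i

end Helper78.JN
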