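import Pool.Agent.Helper71.JN.SheetA
import Pool.Agent.Helper47.SUBW.SLL

/-!
# Project JN, row OMG: elements of `OO`, `Om` and `Sl`
-/

set_option autoImplicit false

namespace Helper78.JN

open Filter Finset Pool.Agent.Helper70.SUB Pool.Agent.Helper77.SUBK Pool.Agent.Helper70.SUBL
  Pool.Agent.Helper70.SUBW Pool.Agent.Helper71.JN Pool.Agent.Helper47.SUBW

theorem OMG (hOSR : ST_OSR) (hSLL : ST_SLL) : ST_OMG := by
  intro M _ _ _ S P φ X hS hX
  obtain ⟨o1, o2, -, o4, o5, -, o7, o8, o9⟩ := hOSR M S P φ X hS hX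
  obtain ⟨l1, l2, l3, l4, l5, -⟩ := hSLL M S P φ X 0 hS hX
  have os0 : OS P φ X fun _ => (0 : M) := by
    have := o8 (fun _ => 0) 1 (by
      filter_upwards [hX.eventually_ge_atTop 1] with j hx
      rw [Real.rpow_one]
      simp only [Int.cast_zero, abs_zero]
      linarith)
    simpa only [Int.cast_zero] using this
  have os1 : OS P φ X fun _ => (1 : M) := by
    have := o8 (fun _ => 1) 1 (by
      filter_upwards [hX.eventually_ge_atTop 1] with j hx
      rw [Real.rpow_one]
      simp only [Int.cast_one, abs_one]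
      exact hx)
    simpa only [Int.cast_one] using this
  have hOO : ∀ g : UP M φ, g ∈ OO P φ X ↔ ∃ z : ℕ → M, OS P φ X z ∧ gm φ z = g := by
    intro g
    constructor
    · intro hg
      induction hg using Subring.closure_induction with
      | mem x hx => exact hx
      | zero => exact ⟨_, os0, gm_zero φ⟩
      | one => exact ⟨_, os1, gm_one φ⟩
      | add x y _ _ hx hy =>
        obtain ⟨z, hz, rfl⟩ := hx
        obtain ⟨z', hz', rfl⟩ := hy
        exact ⟨_, (o4 z z' hz hz').1, gm_add φ z z'⟩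
      | neg x _ hx =>
        obtain ⟨z, hz, rfl⟩ := hx
        exact ⟨_, o5 z hz, gm_neg φ z⟩
      | mul x y _ _ hx hy =>
        obtain ⟨z, hz, rfl⟩ := hx
        obtain ⟨z', hz', rfl⟩ := hy
        exact ⟨_, (o4 z z' hz hz').2, gm_mul φ z z'⟩
    · intro h
      exact Subring.subset_closure h
  have hne : ∀ z : ℕ → M, gm φ z ≠ 0 ↔ ∀ᶠ j in (φ : Filter ℕ), z j ≠ 0 := by
    intro z
    rw [Ultrafilter.eventually_not, ← gm_zero φ, Ne, gm_eq]
  have hOm : ∀ g : UP M φ, g ∈ Om P φ X ↔ ∃ z z' : ℕ → M, OS P φ X z ∧ OS P φ X z' ∧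
      (∀ᶠ j in (φ : Filter ℕ), z' j ≠ 0) ∧ gm φ (fun j => z j / z' j) = g := by
    intro g
    constructor
    · intro hg
      obtain ⟨x, hx, y, hy, hxy⟩ := Subfield.mem_closure_iff.1 hg
      obtain ⟨z, hz, rfl⟩ := (hOO x).1 hx
      obtain ⟨z', hz', rfl⟩ := (hOO y).1 hy
      by_cases h0 : gm φ z' = 0
      · refine ⟨_, _, os0, os1, Eventually.of_forall fun _ => one_ne_zero, ?_⟩
        rw [← hxy, h0, div_zero]
        rw [gm_div, gm_zero, gm_one, zero_div]
      · exact ⟨z, z', hz, hz', (hne z').1 h0, by rw [gm_div, hxy]⟩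
    · rintro ⟨z, z', hz, hz', -, rfl⟩
      rw [gm_div]
      exact (Om P φ X).div_mem (Subfield.subset_closure ⟨z, hz, rfl⟩)
        (Subfield.subset_closure ⟨z', hz', rfl⟩)
  refine ⟨hOO, hOm, ?_, fun z hz => Subfield.subset_closure ⟨z, hz, rfl⟩,
    fun z hz => Subfield.subset_closure ⟨z, o1 z hz, rfl⟩, ?_, fun g => gm_surj φ g, ?_⟩
  · intro g
    constructor
    · intro hg
      induction hg using Subfield.closure_induction with
      | mem x hx => exact hx
      | one =>
        have := l4 1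
        rw [Int.cast_one] at this
        exact this
      | add x y _ _ hx hy => exact (l3 _ _ hx hy).1
      | neg x _ hx =>
        have h0 := l4 0
        rw [Int.cast_zero] at h0
        have := (l3 _ _ h0 hx).2.2.1
        rw [zero_sub] at this
        exact this
      | inv x _ hx =>
        have h0 := l4 1
        rw [Int.cast_one] at h0
        have := (l3 _ _ h0 hx).2.2.2
        rw [one_div] at this
        exact this
      | mul x y _ _ hx hy => exact (l3 _ _ hx hy).2.1
    · intro h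
      exact Subfield.subset_closure h
  · have := l1
    constructor
    intro a b hab
    have h1 : (((a : ℕ) : Om P φ X) : UP M φ) = ((b : ℕ) : Om P φ X) := by rw [hab]
    push_cast at h1
    exact_mod_cast h1
  · intro g z hz hg
    obtain ⟨x, y, hx, hy, hy0, hxy⟩ := (hOm g).1 g.2
    have hg' : (g : UP M φ) ≠ 0 := fun h => hg (Subtype.ext h)
    have hx0 : ∀ᶠ j in (φ : Filter ℕ), x j ≠ 0 := by
      rw [← hne]
      intro h
      apply hg'
      rw [← hxy, gm_div, h, zero_div]
    have hzx : ∀ᶠ j in (φ : Filter ℕ), z j = x j / y j := by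
      rw [← gm_eq, hz, hxy]
    obtain ⟨A, hA, hA1⟩ := o9 x hx hx0
    obtain ⟨B, hB, hB1⟩ := o9 y hy hy0
    obtain ⟨-, A', hA', hA1'⟩ := hx
    obtain ⟨-, B', hB', hB1'⟩ := hy
    refine ⟨A + B + A' + B', by positivity, ?_⟩
    filter_upwards [hzx, hA1, hB1, hA1', hB1', hX.eventually_ge_atTop 1] with j e1 e2 e3 e4 e5 hX1 v hv σ
    have hX0 : 0 < X j := by linarith
    have f2 := e2 v hv σ
    have f3 := e3 v hv σ
    have f4 := e4 v hv σ
    have f5 := e5 v hv σ
    rw [e1, map_div₀, P.div hv]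
    have hy1 : 0 < P.nv v (σ (y j)) := lt_of_lt_of_le (by positivity) f3
    constructor
    · rw [le_div_iff₀ hy1]
      calc X j ^ (-(A + B + A' + B')) * P.nv v (σ (y j))
          ≤ X j ^ (-(A + B + A' + B')) * X j ^ B' :=
            mul_le_mul_of_nonneg_left f5 (by positivity)
        _ = X j ^ (-(A + B + A' + B') + B') := (Real.rpow_add hX0 _ _).symm
        _ ≤ X j ^ (-A) := Real.rpow_le_rpow_of_exponent_le hX1 (by linarith)
        _ ≤ _ := f2
    · rw [div_le_iff₀ hy1]
      calc P.nv v (σ (x j)) ≤ X j ^ A' := f4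
        _ ≤ X j ^ (A + B + A' + B' + -B) := Real.rpow_le_rpow_of_exponent_le hX1 (by linarith)
        _ = X j ^ (A + B + A' + B') * X j ^ (-B) := Real.rpow_add hX0 _ _
        _ ≤ X j ^ (A + B + A' + B') * P.nv v (σ (y j)) :=
            mul_le_mul_of_nonneg_left f3 (by positivity)

end Helper78.JN
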