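import Pool.Agent.Helper71.JN.SheetA
import Pool.Agent.Helper15.SUB.AV

/-!
# Project JN, row OSR: closure properties of `OS`
-/

set_option autoImplicit false

namespace Helper78.JN

open Filter Finset Pool.Agent.Helper70.SUB Pool.Agent.Helper77.SUBK Pool.Agent.Helper70.SUBL
  Pool.Agent.Helper70.SUBW Pool.Agent.Helper71.JN

section
variable {M : Type} [Field M] [NumberField M] {S : Finset ℕ} {P : PF S M}
  {φ : Ultrafilter ℕ} {X : ℕ → ℝ}

omit [NumberField M] in
theorem isInt_nat (n : ℕ) : IsIntegral ℤ (n : M) := by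
  have : (n : M) = algebraMap ℤ M (n : ℤ) := by simp
  rw [this]
  exact isIntegral_algebraMap

omit [NumberField M] in
theorem isInt_int (n : ℤ) : IsIntegral ℤ (n : M) := by
  have : (n : M) = algebraMap ℤ M n := by simp
  rw [this]
  exact isIntegral_algebraMap

/-- the first half of `OS`, pointwise -/
theorem os_add (hSVB : ST_SVB) (hX : Tendsto X (φ : Filter ℕ) atTop) {z z' : ℕ → M}
    (hz : OS P φ X z) (hz' : OS P φ X z') : OS P φ X (fun j => z j + z' j) := by
  obtain ⟨svb1, svb2, -⟩ := hSVB M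
  obtain ⟨h1, A, hA, h2⟩ := hz
  obtain ⟨h1', A', hA', h2'⟩ := hz'
  constructor
  · intro ε hε
    filter_upwards [h1 (ε / 2) (by positivity), h1' (ε / 2) (by positivity),
      hX.eventually_ge_atTop 1] with j hj hj' hx
    obtain ⟨D, d1, d2, d3⟩ := hj
    obtain ⟨D', d1', d2', d3'⟩ := hj'
    refine ⟨D * D', mul_ne_zero d1 d1', ?_, ?_⟩
    · push_cast
      calc (D : ℝ) * D' ≤ X j ^ (ε / 2) * X j ^ (ε / 2) :=
            mul_le_mul d2 d2' (Nat.cast_nonneg _) (by positivity)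
        _ = X j ^ ε := by rw [← Real.rpow_add (by linarith)]; ring_nf
    · have h : ((D * D' : ℕ) : M) * (z j + z' j) =
          (D' : M) * ((D : M) * z j) + (D : M) * ((D' : M) * z' j) := by
        push_cast; ring
      rw [h]
      exact (svb2 S _ _ (svb2 S _ _ (svb1 S _ (isInt_nat D')) d3).2
        (svb2 S _ _ (svb1 S _ (isInt_nat D)) d3').2).1
  · refine ⟨A + A' + 1, by positivity, ?_⟩
    filter_upwards [h2, h2', hX.eventually_ge_atTop 2] with j hj hj' hx v hv σ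
    have hx1 : 1 ≤ X j := by linarith
    have e1 : X j ^ A ≤ X j ^ (A + A') := Real.rpow_le_rpow_of_exponent_le hx1 (by linarith)
    have e2 : X j ^ A' ≤ X j ^ (A + A') := Real.rpow_le_rpow_of_exponent_le hx1 (by linarith)
    rw [map_add]
    refine (P.add v hv _ _).trans ?_
    have e3 := hj v hv σ
    have e4 := hj' v hv σ
    rw [Real.rpow_add (by linarith : 0 < X j) (A + A') 1, Real.rpow_one]
    have e5 : 0 ≤ X j ^ (A + A') := by positivity
    nlinarith

theorem os_mul (hSVB : ST_SVB) (hX : Tendsto X (φ : Filter ℕ) atTop) {z z' : ℕ → M}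
    (hz : OS P φ X z) (hz' : OS P φ X z') : OS P φ X (fun j => z j * z' j) := by
  obtain ⟨svb1, svb2, -⟩ := hSVB M
  obtain ⟨h1, A, hA, h2⟩ := hz
  obtain ⟨h1', A', hA', h2'⟩ := hz'
  constructor
  · intro ε hε
    filter_upwards [h1 (ε / 2) (by positivity), h1' (ε / 2) (by positivity),
      hX.eventually_ge_atTop 1] with j hj hj' hx
    obtain ⟨D, d1, d2, d3⟩ := hj
    obtain ⟨D', d1', d2', d3'⟩ := hj'
    refine ⟨D * D', mul_ne_zero d1 d1', ?_, ?_⟩
    · push_cast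
      calc (D : ℝ) * D' ≤ X j ^ (ε / 2) * X j ^ (ε / 2) :=
            mul_le_mul d2 d2' (Nat.cast_nonneg _) (by positivity)
        _ = X j ^ ε := by rw [← Real.rpow_add (by linarith)]; ring_nf
    · have h : ((D * D' : ℕ) : M) * (z j * z' j) = ((D : M) * z j) * ((D' : M) * z' j) := by
        push_cast; ring
      rw [h]
      exact (svb2 S _ _ d3 d3').2
  · refine ⟨A + A', by positivity, ?_⟩
    filter_upwards [h2, h2', hX.eventually_ge_atTop 1] with j hj hj' hx v hv σ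
    rw [map_mul, P.mul v hv, Real.rpow_add (by linarith : 0 < X j)]
    exact mul_le_mul (hj v hv σ) (hj' v hv σ) (P.nn _ _) (by positivity)

theorem os_congr {z z' : ℕ → M} (h : ∀ᶠ j in (φ : Filter ℕ), z j = z' j)
    (hz : OS P φ X z) : OS P φ X z' := by
  obtain ⟨h1, A, hA, h2⟩ := hz
  refine ⟨fun ε hε => ?_, A, hA, ?_⟩
  · filter_upwards [h1 ε hε, h] with j hj e
    rw [← e]
    exact hj
  · filter_upwards [h2, h] with j hj e
    rw [← e]
    exact hj

theorem os_slw (hSVB : ST_SVB) {z : ℕ → M} (hz : Slw P φ X z)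
    (hsz : ∀ v ∈ plc S, ∀ (σ : M ≃ₐ[ℚ] M) (ε : ℝ), 0 < ε →
      ∀ᶠ j in (φ : Filter ℕ), P.nv v (σ (z j)) ≤ X j ^ ε) : OS P φ X z := by
  refine ⟨fun ε hε => ?_, 1, one_pos, ?_⟩
  · filter_upwards [hz ε hε] with j hj
    obtain ⟨D, h1, h2, h3, -⟩ := hj
    exact ⟨D, h1, h2, (hSVB M).1 S _ h3⟩
  · have h1 : ∀ᶠ j in (φ : Filter ℕ), ∀ v ∈ plc S, ∀ σ : M ≃ₐ[ℚ] M,
        P.nv v (σ (z j)) ≤ X j ^ (1 : ℝ) := by
      rw [Filter.eventually_all_finset]
      intro v hv
      rw [Filter.eventually_all]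
      exact fun σ => hsz v hv σ 1 one_pos
    exact h1

theorem os_mu (hX : Tendsto X (φ : Filter ℕ) atTop) {u : ℕ → M} (hu : MU P φ X u) :
    OS P φ X u := by
  obtain ⟨h1, h2⟩ := hu
  refine ⟨fun ε hε => ?_, h2⟩
  filter_upwards [h1, hX.eventually_ge_atTop 1] with j hj hx
  refine ⟨1, one_ne_zero, ?_, ?_⟩
  · rw [Nat.cast_one]
    exact Real.one_le_rpow hx hε.le
  · rw [Nat.cast_one, one_mul]
    exact hj.2.1

theorem os_int (hSVB : ST_SVB) (hS : ∀ p ∈ S, p.Prime) (hX : Tendsto X (φ : Filter ℕ) atTop)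
    (c : ℕ → ℤ) (B : ℝ) (hc : ∀ᶠ j in (φ : Filter ℕ), |(c j : ℝ)| ≤ X j ^ B) :
    OS P φ X (fun j => (c j : M)) := by
  have hAV := Pool.Agent.Helper15.SUB.AV
  refine ⟨fun ε hε => ?_, |B| + 1, by positivity, ?_⟩
  · filter_upwards [hX.eventually_ge_atTop 1] with j hx
    refine ⟨1, one_ne_zero, ?_, ?_⟩
    · rw [Nat.cast_one]
      exact Real.one_le_rpow hx hε.le
    · rw [Nat.cast_one, one_mul]
      exact (hSVB M).1 S _ (isInt_int _)
  · filter_upwards [hc, hX.eventually_ge_atTop 1] with j hj hx v hv σ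
    rw [map_intCast]
    have e1 : 1 ≤ X j ^ (|B| + 1) := Real.one_le_rpow hx (by positivity)
    cases v with
    | none =>
      rw [P.intCast mem_none]
      have e2 : av none ((c j : ℤ) : ℚ) = |(c j : ℝ)| := by simp [av]
      rw [e2]
      refine hj.trans (Real.rpow_le_rpow_of_exponent_le hx ?_)
      linarith [le_abs_self B]
    | some p =>
      exact (P.int_le hAV hS (of_mem_some hv) (c j)).trans e1

theorem os_sum (hSVB : ST_SVB) (hX : Tendsto X (φ : Filter ℕ) atTop) (h0 : OS P φ X fun _ => (0 : M))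
    {ι : Type} (s : Finset ι) (f : ι → ℕ → M) (hf : ∀ i ∈ s, OS P φ X (f i)) :
    OS P φ X (fun j => ∑ i ∈ s, f i j) := by
  classical
  induction s using Finset.induction_on with
  | empty => simpa only [Finset.sum_empty] using h0
  | insert a s ha ih =>
    simp only [Finset.sum_insert ha]
    exact os_add hSVB hX (hf a (Finset.mem_insert_self a s))
      (ih fun i hi => hf i (Finset.mem_insert_of_mem hi))

/-- a factor of a product of factors `≤ B` is not small if the product is at least one -/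
theorem factor_ge {ι : Type} (s : Finset ι) (f : ι → ℝ) {B : ℝ} (hB : 1 ≤ B)
    (hf0 : ∀ i ∈ s, 0 ≤ f i) (hf : ∀ i ∈ s, f i ≤ B) (h1 : 1 ≤ ∏ i ∈ s, f i) {i : ι}
    (hi : i ∈ s) : 1 ≤ f i * B ^ s.card := by
  classical
  have e := Finset.mul_prod_erase s f hi
  have e1 : ∏ k ∈ s.erase i, f k ≤ B ^ s.card := by
    calc ∏ k ∈ s.erase i, f k ≤ ∏ _k ∈ s.erase i, B :=
          Finset.prod_le_prod (fun k hk => hf0 k (Finset.mem_of_mem_erase hk))
            fun k hk => hf k (Finset.mem_of_mem_erase hk)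
      _ = B ^ (s.erase i).card := by rw [Finset.prod_const]
      _ ≤ B ^ s.card := pow_le_pow_right₀ hB (Finset.card_le_card (Finset.erase_subset i s))
  rw [← e] at h1
  exact h1.trans (mul_le_mul_of_nonneg_left e1 (hf0 i hi))

/-- lower bound for the sizes of nonzero `S`-integral sequences -/
theorem os_low [IsGalois ℚ M] (hPRK : ST_PRK) (hS : ∀ p ∈ S, p.Prime)
    (hX : Tendsto X (φ : Filter ℕ) atTop) {z : ℕ → M} (hz : OS P φ X z)
    (hz0 : ∀ᶠ j in (φ : Filter ℕ), z j ≠ 0) :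
    ∃ A : ℝ, 0 < A ∧ ∀ᶠ j in (φ : Filter ℕ), ∀ v ∈ plc S, ∀ σ : M ≃ₐ[ℚ] M,
      X j ^ (-A) ≤ P.nv v (σ (z j)) := by
  have hAV := Pool.Agent.Helper15.SUB.AV
  obtain ⟨h1, A, hA, h2⟩ := hz
  set T : Finset (Option ℕ × (M ≃ₐ[ℚ] M)) := plc S ×ˢ Finset.univ with hT
  refine ⟨(1 + A) * T.card + 1, by positivity, ?_⟩
  filter_upwards [h1 1 one_pos, h2, hz0, hX.eventually_ge_atTop 1] with j hj hb h0 hx v hv σ
  obtain ⟨D, d1, d2, d3⟩ := hj
  rw [Real.rpow_one] at d2
  have hx0 : 0 < X j := by linarith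
  have hD0 : (D : M) ≠ 0 := Nat.cast_ne_zero.2 d1
  have hD1 : (1 : ℝ) ≤ D := by exact_mod_cast Nat.one_le_iff_ne_zero.2 d1
  have hDv : ∀ v ∈ plc S, P.nv v (D : M) ≤ X j := by
    intro v hv
    cases v with
    | none =>
      rw [P.natCast mem_none]
      have e2 : av none ((D : ℕ) : ℚ) = D := by simp [av]
      rw [e2]
      exact d2
    | some p =>
      have := P.int_le hAV hS (of_mem_some hv) (D : ℤ)
      rw [Int.cast_natCast] at this
      linarith
  have hfac : ∀ i ∈ T, P.nv i.1 (i.2 ((D : M) * z j)) ≤ X j ^ (1 + A) := by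
    rintro ⟨v, τ⟩ hi
    have hv' : v ∈ plc S := (Finset.mem_product.1 hi).1
    simp only
    rw [map_mul, map_natCast, P.mul v hv', Real.rpow_add hx0, Real.rpow_one]
    exact mul_le_mul (hDv v hv') (hb v hv' τ) (P.nn _ _) hx0.le
  have hprod := (hPRK M S P hS).1 ((D : M) * z j) (mul_ne_zero hD0 h0) d3
  have hprod' : 1 ≤ ∏ i ∈ T, P.nv i.1 (i.2 ((D : M) * z j)) := by
    rw [hT, Finset.prod_product]
    exact hprod
  have hB : 1 ≤ X j ^ (1 + A) := Real.one_le_rpow hx (by positivity)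
  have h3 := factor_ge T (fun i => P.nv i.1 (i.2 ((D : M) * z j))) hB (fun i _ => P.nn _ _)
    hfac hprod' (i := (v, σ)) (Finset.mem_product.2 ⟨hv, Finset.mem_univ _⟩)
  simp only at h3
  rw [map_mul, map_natCast, P.mul v hv] at h3
  have h4 : P.nv v (D : M) * P.nv v (σ (z j)) ≤ X j * P.nv v (σ (z j)) :=
    mul_le_mul_of_nonneg_right (hDv v hv) (P.nn _ _)
  have h5 : 1 ≤ X j * P.nv v (σ (z j)) * (X j ^ (1 + A)) ^ T.card :=
    h3.trans (mul_le_mul_of_nonneg_right h4 (by positivity))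
  have h6 : X j * (X j ^ (1 + A)) ^ T.card = X j ^ ((1 + A) * T.card + 1) := by
    rw [Real.rpow_add hx0 ((1 + A) * T.card) 1, Real.rpow_one, Real.rpow_mul hx0.le,
      Real.rpow_natCast]
    ring
  rw [Real.rpow_neg hx0.le]
  rw [inv_le_iff_one_le_mul₀ (by positivity)]
  calc (1 : ℝ) ≤ X j * P.nv v (σ (z j)) * (X j ^ (1 + A)) ^ T.card := h5
    _ = P.nv v (σ (z j)) * (X j * (X j ^ (1 + A)) ^ T.card) := by ring
    _ = _ := by rw [h6]

end

theorem OSR (hSLW : ST_SLW) (hSVB : ST_SVB) (hPRK : ST_PRK) : ST_OSR := by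
  intro M _ _ _ S P φ X hS hX
  obtain ⟨slw1, -, -, -, slw5, -⟩ := hSLW M S P φ X hS hX
  have a1 : ∀ z : ℕ → M, Slw P φ X z → OS P φ X z := fun z hz => os_slw hSVB hz (slw5 z hz)
  have a2 : ∀ u : ℕ → M, MU P φ X u → OS P φ X u := fun u hu => os_mu hX hu
  have a0 : ∀ c : M, OS P φ X fun _ => c := fun c => a1 _ (slw1 c)
  refine ⟨a1, a2, ?_, fun z z' hz hz' => ⟨os_add hSVB hX hz hz', os_mul hSVB hX hz hz'⟩, ?_, ?_,
    fun z z' h hz => os_congr h hz, fun c B hc => os_int hSVB hS hX c B hc,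
    fun z hz h0 => os_low hPRK hS hX hz h0⟩
  · rintro z ⟨t, c, u, hc, hu, hz⟩
    refine os_congr hz (os_sum hSVB hX (a0 0) Finset.univ (fun i j => c i j * u i j) fun i _ => ?_)
    exact os_mul hSVB hX (a1 _ (hc i)) (a2 _ (hu i))
  · intro z hz
    refine os_congr (z := fun j => (-1 : M) * z j) (Eventually.of_forall fun j => by ring)
      (os_mul hSVB hX (a0 (-1)) hz)
  · rintro z σ ⟨h1, A, hA, h2⟩
    obtain ⟨-, -, -, -, -, -, -, -, -, svb10, -⟩ := hSVB M
    refine ⟨fun ε hε => ?_, A, hA, ?_⟩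
    · filter_upwards [h1 ε hε] with j hj
      obtain ⟨D, d1, d2, d3⟩ := hj
      refine ⟨D, d1, d2, ?_⟩
      have := (svb10 S _ σ).1 d3
      rwa [map_mul, map_natCast] at this
    · filter_upwards [h2] with j hj v hv τ
      exact hj v hv (τ * σ)

end Helper78.JN
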