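import Pool.Agent.Helper71.JN.SheetD
import Pool.Agent.Helper78.JN.SPN

/-!
# Project JN, row SPNK: the spectral norm, conjugates of elements with a denominator in `R`
-/

set_option autoImplicit false

namespace Helper78.JN

open Polynomial Pool.Agent.Helper71.JN

/-- conjugates of `q * z` -/
theorem root_smul {K Ω E : Type} [Field K] [Field Ω] [Field E] [Algebra K Ω] [Algebra K E]
    (q : K) {z : Ω} {a : E} (ha : aeval a (minpoly K z) = 0) :
    aeval (algebraMap K E q * a) (minpoly K (algebraMap K Ω q * z)) = 0 := by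
  set p := minpoly K (algebraMap K Ω q * z) with hp
  have h1 : aeval z (p.comp (C q * X)) = 0 := by
    rw [aeval_comp]
    simp only [map_mul, aeval_C, aeval_X]
    exact minpoly.aeval K _
  obtain ⟨c, hc⟩ := minpoly.dvd K z h1
  have h2 : aeval a (p.comp (C q * X)) = 0 := by
    rw [hc, map_mul, ha, zero_mul]
  rw [aeval_comp] at h2
  simpa only [map_mul, aeval_C, aeval_X] using h2

theorem SPNK (hP : ST_PRIM) (hRK : ST_RK) : ST_SPNK := by
  intro F Ω _ _ _ I _ r D i
  obtain ⟨N, h1, h2, h3, h4, h5, h6, h7⟩ := SPN hP F Ω I r D i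
  refine ⟨N, h1, h2, h3, h4, h5, ?_, h7⟩
  rintro z ⟨q, hq, hq0, hqz⟩ hi a ha
  have hqK : q ∈ D.K := (hRK F Ω I r D).2.2.2.2.2.2.1 q hq
  set k : D.K := ⟨q, hqK⟩ with hk
  have hk0 : k ≠ 0 := fun h => hq0 (congrArg Subtype.val h)
  have e1 : algebraMap D.K Ω k = q := rfl
  have hint : IsIntegral D.K (q * z) := by
    rw [← e1]
    exact isIntegral_algebraMap.mul hi
  have h8 := h6 (q * z) hqz hint (algebraMap D.K (AlgebraicClosure D.K) k * a)
    (by
      rw [← e1]
      exact root_smul k ha)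
  have e2 : a = algebraMap D.K (AlgebraicClosure D.K) k⁻¹ *
      (algebraMap D.K (AlgebraicClosure D.K) k * a) := by
    rw [← mul_assoc, ← map_mul, inv_mul_cancel₀ hk0, map_one, one_mul]
  have h9 := h3 (algebraMap D.K (AlgebraicClosure D.K) k⁻¹)
    (algebraMap D.K (AlgebraicClosure D.K) k * a)
  rw [← e2, h5] at h9
  have e3 : ((k⁻¹ : D.K) : Ω) = q⁻¹ := rfl
  have hnq : D.nu i q ≠ 0 := (D.nu i).ne_zero hq0
  rw [e3, map_inv₀] at h9
  rw [map_mul] at h8
  calc N a ≤ (D.nu i q)⁻¹ * N (algebraMap D.K (AlgebraicClosure D.K) k * a) := h9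
    _ ≤ (D.nu i q)⁻¹ * (D.nu i q * D.nu i z) :=
        mul_le_mul_of_nonneg_left h8 (inv_nonneg.2 (AbsoluteValue.nonneg _ _))
    _ = D.nu i z := by rw [← mul_assoc, inv_mul_cancel₀ hnq, one_mul]

end Helper78.JN
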